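import Pool.Agent.Work.MP_959bfa_lin.Interface3
import Pool.Agent.Work.MP_959bfa_wn.Interface2

/-!
MP_959bfa_co, linear weak nets: block CLS (size of an uncrossed antichain in one size class).
-/

namespace Wn

open Finset

theorem CLS (hIND : stmt_IND) (hDEP : stmt_DEP) : stmt_CLS := by
  classical
  intro n P B ι S A j ρ hG hρ hρ1 hNe hA hAA
  have hdep : DepthLe S A (8 * (2 * 2 ^ (4 * j))) := by
    have h1 := hDEP n P ι S A (2 ^ (j + 1) - 1) (fun i hi => by
      have := (hA i hi).2.1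
      omega) (fun i hi k hk hik => (hAA i hi k hk hik).2)
    have h2 : (2 ^ (j + 1) - 1 + 1) ^ 4 = 8 * (2 * 2 ^ (4 * j)) := by
      have h3 : 1 ≤ 2 ^ (j + 1) := Nat.one_le_two_pow
      rw [Nat.sub_add_cancel h3]
      ring
    rw [h2] at h1
    exact h1
  obtain ⟨T, hTA, hT, hcard⟩ := hIND ι S A (2 * 2 ^ (4 * j))
    (by have : 1 ≤ 2 ^ (4 * j) := Nat.one_le_two_pow
        omega) hNe hdep (by
      intro i hi
      have h1 : (fl A (fun k => Cr S k i)) = ∅ := by
        refine Finset.eq_empty_iff_forall_notMem.2 (fun k hk => ?_)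
        obtain ⟨hkA, h1, h2, h3, h4⟩ := mem_fl.1 hk
        have hki : k ≠ i := by
          rintro rfl
          exact lt_irrefl _ h1
        exact (hAA k hkA i hi hki).1 ⟨h1.le, h2.le, h3.le, h4.le⟩
      rw [h1]
      simp)
  -- the packing
  set M := T.card with hM
  let e := T.equivFin
  have hgood := hG M (fun a => S (e.symm a).1) ((2 : ℝ) ^ j) ρ (by
    intro a b hab
    refine hT _ (e.symm a).2 _ (e.symm b).2 (fun h => hab ?_)
    exact e.symm.injective (Subtype.ext h)) hρ hρ1 (one_le_pow₀ (by norm_num)) (by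
    intro a
    have h1 := hA _ (hTA (e.symm a).2)
    refine ⟨?_, h1.2.2⟩
    exact_mod_cast h1.1)
  have h1 : (A.card : ℝ) ≤ 400 * (2 * 2 ^ (4 * j)) * M := by
    have h2 : ((A.card : ℕ) : ℝ) ≤ ((400 * (2 * 2 ^ (4 * j)) * T.card : ℕ) : ℝ) := by
      exact_mod_cast hcard
    push_cast at h2
    exact h2
  have h2 : (0 : ℝ) ≤ 400 * (2 * 2 ^ (4 * j)) := by positivity
  have h3 : (A.card : ℝ) ≤ 400 * (2 * 2 ^ (4 * j)) *
      (16 * n * Real.exp (-(ρ ^ 2 * 2 ^ j / 8))) :=
    h1.trans (mul_le_mul_of_nonneg_left hgood h2)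
  refine h3.trans ?_
  have h4 : (0 : ℝ) ≤ 2 ^ (4 * j) * n * Real.exp (-(ρ ^ 2 * 2 ^ j / 8)) := by positivity
  nlinarith

end Wn
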