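import Pool.Agent.Work.MP_959bfa_lin.Interface3

/-!
MP_959bfa_co, linear weak nets: block DEP (depth of uncrossed families).
-/

namespace Wn

open Finset

namespace L81

/-- number of points of the box in the first quadrant at `(x, y)` -/
noncomputable def q1 {n : ℕ} (P : Fin n → ℝ × ℝ) (x y : ℝ) (R : Bx) : ℕ :=
  (fl (inds P R) (fun p => x ≤ (P p).1 ∧ y ≤ (P p).2)).card

/-- second quadrant -/
noncomputable def q2 {n : ℕ} (P : Fin n → ℝ × ℝ) (x y : ℝ) (R : Bx) : ℕ :=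
  (fl (inds P R) (fun p => (P p).1 ≤ x ∧ y ≤ (P p).2)).card

/-- third quadrant -/
noncomputable def q3 {n : ℕ} (P : Fin n → ℝ × ℝ) (x y : ℝ) (R : Bx) : ℕ :=
  (fl (inds P R) (fun p => (P p).1 ≤ x ∧ (P p).2 ≤ y)).card

/-- fourth quadrant -/
noncomputable def q4 {n : ℕ} (P : Fin n → ℝ × ℝ) (x y : ℝ) (R : Bx) : ℕ :=
  (fl (inds P R) (fun p => x ≤ (P p).1 ∧ (P p).2 ≤ y)).card

theorem fl_lt {n : ℕ} {A B : Finset (Fin n)} {u v : Fin n → Prop} {p : Fin n}
    (h : ∀ q, q ∈ A → u q → q ∈ B ∧ v q) (hp : p ∈ B) (hv : v p) (hA : p ∉ A) :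
    (fl A u).card < (fl B v).card := by
  refine Finset.card_lt_card ⟨fun q hq => ?_, fun hc => ?_⟩
  · have h1 := mem_fl.1 hq
    exact mem_fl.2 (h q h1.1 h1.2)
  · have h1 := hc (mem_fl.2 ⟨hp, hv⟩)
    exact hA (mem_fl.1 h1).1

theorem mem_inds {n : ℕ} {P : Fin n → ℝ × ℝ} {R : Bx} {p : Fin n} :
    p ∈ inds P R ↔ In R (P p).1 (P p).2 := by
  simp [inds, mem_fl]

theorem cnr_lt {n : ℕ} (P : Fin n → ℝ × ℝ) (x y : ℝ) (R T : Bx) (hR : In R x y)
    (hT : In T x y) (p : Fin n) (h : Cnr R T (P p).1 (P p).2) :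
    q1 P x y T < q1 P x y R ∨ q2 P x y T < q2 P x y R ∨ q3 P x y T < q3 P x y R ∨
      q4 P x y T < q4 P x y R := by
  obtain ⟨hp, hx, hy⟩ := h
  have hpR : p ∈ inds P R := mem_inds.2 hp
  obtain ⟨r1, r2, r3, r4⟩ := hR
  obtain ⟨t1, t2, t3, t4⟩ := hT
  obtain ⟨p1, p2, p3, p4⟩ := hp
  have hpT : p ∉ inds P T := by
    intro hc
    obtain ⟨c1, c2, c3, c4⟩ := mem_inds.1 hc
    rcases hx with hx | hx <;> linarith
  rcases hx with hx | hx <;> rcases hy with hy | hy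
  · right; right; left
    refine fl_lt (fun q hq hu => ?_) hpR ⟨by linarith, by linarith⟩ hpT
    obtain ⟨c1, c2, c3, c4⟩ := mem_inds.1 hq
    exact ⟨mem_inds.2 ⟨by linarith, by linarith [hu.1], by linarith, by linarith [hu.2]⟩, hu⟩
  · right; left
    refine fl_lt (fun q hq hu => ?_) hpR ⟨by linarith, by linarith⟩ hpT
    obtain ⟨c1, c2, c3, c4⟩ := mem_inds.1 hq
    exact ⟨mem_inds.2 ⟨by linarith, by linarith [hu.1], by linarith [hu.2], by linarith⟩, hu⟩
  · right; right; right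
    refine fl_lt (fun q hq hu => ?_) hpR ⟨by linarith, by linarith⟩ hpT
    obtain ⟨c1, c2, c3, c4⟩ := mem_inds.1 hq
    exact ⟨mem_inds.2 ⟨by linarith [hu.1], by linarith, by linarith, by linarith [hu.2]⟩, hu⟩
  · left
    refine fl_lt (fun q hq hu => ?_) hpR ⟨by linarith, by linarith⟩ hpT
    obtain ⟨c1, c2, c3, c4⟩ := mem_inds.1 hq
    exact ⟨mem_inds.2 ⟨by linarith [hu.1], by linarith, by linarith [hu.2], by linarith⟩, hu⟩

theorem fl_card_le {n N : ℕ} {A : Finset (Fin n)} (u : Fin n → Prop) (h : A.card ≤ N) :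
    (fl A u).card < N + 1 :=
  Nat.lt_succ_of_le ((Finset.card_le_card (fl_subset A u)).trans h)

end L81

theorem DEP : stmt_DEP := by
  classical
  intro n P ι S A N hN hU x y
  have hmap : ∀ i ∈ fl A (fun j => In (S j) x y),
      ((L81.q1 P x y (S i), L81.q2 P x y (S i)), (L81.q3 P x y (S i), L81.q4 P x y (S i))) ∈
        ((range (N + 1) ×ˢ range (N + 1)) ×ˢ (range (N + 1) ×ˢ range (N + 1))) := by
    intro i hi
    have h1 := hN i (mem_fl.1 hi).1
    simp only [mem_product, mem_range]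
    exact ⟨⟨L81.fl_card_le _ h1, L81.fl_card_le _ h1⟩, L81.fl_card_le _ h1,
      L81.fl_card_le _ h1⟩
  have hcard := Finset.card_le_card_of_injOn _ hmap (by
    intro i hi j hj hij
    have hi' := mem_fl.1 (Finset.mem_coe.1 hi)
    have hj' := mem_fl.1 (Finset.mem_coe.1 hj)
    by_contra hne
    simp only [Prod.mk.injEq] at hij
    obtain ⟨⟨e1, e2⟩, e3, e4⟩ := hij
    rcases hU i hi'.1 j hj'.1 hne with hd | ⟨p, hp | hp⟩
    · exact hd x y ⟨hi'.2, hj'.2⟩
    · rcases L81.cnr_lt P x y _ _ hi'.2 hj'.2 p hp with h | h | h | h <;> omega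
    · rcases L81.cnr_lt P x y _ _ hj'.2 hi'.2 p hp with h | h | h | h <;> omega)
  refine hcard.trans (le_of_eq ?_)
  simp only [card_product, card_range]
  ring

end Wn
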