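import Pool.Agent.Work.MP_959bfa_lin.Interface3

/-!
MP_959bfa_co, linear weak nets: block LEV (weighted Mirsky theorem).
-/

namespace Wn

open Finset

namespace L81

theorem lev_aux {ι : Type} [Fintype ι] (lt : ι → ι → Prop) (h : ι → ℝ) (S0 : ℝ)
    (hirr : ∀ i, ¬ lt i i) (htr : ∀ i j k, lt i j → lt j k → lt i k) (hh : ∀ i, 0 ≤ h i)
    (hS : ∀ A : Finset ι, (∀ i ∈ A, ∀ j ∈ A, ¬ lt i j) → ∑ i ∈ A, h i ≤ S0) :
    ∀ (k : ℕ) (y : ι → ℝ) (W : ℝ), (∀ i, 0 ≤ y i) → (fl univ (fun i => 0 < y i)).card ≤ k →
      (∀ C : Finset ι, (∀ i ∈ C, ∀ j ∈ C, i ≠ j → lt i j ∨ lt j i) → ∑ i ∈ C, y i ≤ W) →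
      ∑ i, y i * h i ≤ W * S0 := by
  classical
  have hS0 : 0 ≤ S0 := by
    have h1 := hS ∅ (by simp)
    simpa using h1
  have hwf : WellFounded lt := by
    haveI : IsTrans ι lt := ⟨htr⟩
    haveI : Std.Irrefl lt := ⟨hirr⟩
    exact Finite.wellFounded_of_trans_of_irrefl lt
  intro k
  induction k with
  | zero =>
    intro y W hy hc hC
    have h1 : ∀ i, y i = 0 := by
      intro i
      by_contra hne
      have h2 : 0 < y i := lt_of_le_of_ne (hy i) (Ne.symm hne)
      have h3 : i ∈ fl univ (fun i => 0 < y i) := mem_fl.2 ⟨mem_univ _, h2⟩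
      have h4 : 0 < (fl univ (fun i => 0 < y i)).card := card_pos.2 ⟨i, h3⟩
      omega
    have h2 : ∑ i, y i * h i = 0 := by
      refine Finset.sum_eq_zero (fun i _ => ?_)
      rw [h1 i, zero_mul]
    rw [h2]
    have h3 := hC ∅ (by simp)
    simp only [Finset.sum_empty] at h3
    exact mul_nonneg h3 hS0
  | succ k IH =>
    intro y W hy hc hC
    set U : Finset ι := fl univ (fun i => 0 < y i) with hU
    have hW : 0 ≤ W := by
      have h3 := hC ∅ (by simp)
      simpa using h3
    by_cases hUe : U = ∅
    · have h1 : ∀ i, y i = 0 := by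
        intro i
        by_contra hne
        have h2 : 0 < y i := lt_of_le_of_ne (hy i) (Ne.symm hne)
        have h3 : i ∈ U := mem_fl.2 ⟨mem_univ _, h2⟩
        rw [hUe] at h3
        simp at h3
      have h2 : ∑ i, y i * h i = 0 := by
        refine Finset.sum_eq_zero (fun i _ => ?_)
        rw [h1 i, zero_mul]
      rw [h2]
      exact mul_nonneg hW hS0
    · obtain ⟨u0, hu0⟩ := Finset.nonempty_iff_ne_empty.2 hUe
      set A : Finset ι := fl U (fun i => ∀ j ∈ U, ¬ lt j i) with hA
      have hbelow : ∀ c ∈ U, ∃ a ∈ A, a = c ∨ lt a c := by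
        intro c hcU
        obtain ⟨m, hm, hmin⟩ := hwf.has_min {j | j ∈ U ∧ (j = c ∨ lt j c)} ⟨c, hcU, Or.inl rfl⟩
        refine ⟨m, mem_fl.2 ⟨hm.1, fun j hj hjm => ?_⟩, hm.2⟩
        refine hmin j ⟨hj, ?_⟩ hjm
        rcases hm.2 with h | h
        · right; rw [← h]; exact hjm
        · right; exact htr _ _ _ hjm h
      have hAne : A.Nonempty := by
        obtain ⟨a, ha, _⟩ := hbelow u0 hu0
        exact ⟨a, ha⟩
      obtain ⟨a0, ha0, hmin⟩ := Finset.exists_min_image A y hAne
      set δ := y a0 with hδ
      have hδpos : 0 < δ := (mem_fl.1 (mem_fl.1 ha0).1).2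
      have hAanti : ∀ i ∈ A, ∀ j ∈ A, ¬ lt i j := by
        intro i hi j hj hij
        exact (mem_fl.1 hj).2 i (mem_fl.1 hi).1 hij
      let y' : ι → ℝ := fun i => if i ∈ A then y i - δ else y i
      have hy' : ∀ i, 0 ≤ y' i := by
        intro i
        by_cases hi : i ∈ A
        · have h1 := hmin i hi
          simp only [y', hi, if_true]
          linarith
        · simp only [y', hi, if_false]
          exact hy i
      have hle : ∀ i, y' i ≤ y i := by
        intro i
        by_cases hi : i ∈ A
        · simp only [y', hi, if_true]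
          linarith
        · simp only [y', hi, if_false]
          exact le_refl _
      have hsum : ∑ i, y i * h i = ∑ i, y' i * h i + δ * ∑ i ∈ A, h i := by
        have h1 : ∀ i, y i * h i = y' i * h i + (if i ∈ A then δ * h i else 0) := by
          intro i
          by_cases hi : i ∈ A
          · simp only [y', hi, if_true]
            ring
          · simp only [y', hi, if_false]
            ring
        rw [Finset.sum_congr rfl (fun i _ => h1 i), Finset.sum_add_distrib, Finset.mul_sum]
        congr 1
        rw [← Finset.sum_filter]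
        refine Finset.sum_congr ?_ (fun _ _ => rfl)
        ext i
        simp
      have hcard : (fl univ (fun i => 0 < y' i)).card ≤ k := by
        have h1 : fl univ (fun i => 0 < y' i) ⊆ U.erase a0 := by
          intro i hi
          have h2 := (mem_fl.1 hi).2
          refine mem_erase.2 ⟨?_, mem_fl.2 ⟨mem_univ _, h2.trans_le (hle i)⟩⟩
          rintro rfl
          simp only [y', ha0, if_true] at h2
          rw [hδ] at h2
          linarith
        have h2 := Finset.card_le_card h1
        have h3 := Finset.card_erase_of_mem (mem_fl.1 ha0).1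
        omega
      have hchain : ∀ C : Finset ι, (∀ i ∈ C, ∀ j ∈ C, i ≠ j → lt i j ∨ lt j i) →
          ∑ i ∈ C, y' i ≤ W - δ := by
        intro C hCc
        by_cases hCA : ∃ a ∈ C, a ∈ A
        · obtain ⟨a, haC, haA⟩ := hCA
          have h1 := hC C hCc
          rw [← Finset.add_sum_erase _ _ haC] at h1 ⊢
          have h2 : ∑ i ∈ C.erase a, y' i ≤ ∑ i ∈ C.erase a, y i :=
            Finset.sum_le_sum (fun i _ => hle i)
          have h3 : y' a = y a - δ := by
            simp only [y', haA, if_true]
          linarith
        · push Not at hCA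
          set D := C.filter (fun i => i ∈ U) with hD
          have h0 : ∑ i ∈ C, y' i = ∑ i ∈ D, y i := by
            rw [hD, Finset.sum_filter]
            refine Finset.sum_congr rfl (fun i hi => ?_)
            have h1 : y' i = y i := by
              simp only [y', hCA i hi, if_false]
            by_cases hiU : i ∈ U
            · simp [hiU, h1]
            · have h2 : y i = 0 := by
                by_contra hne
                exact hiU (mem_fl.2 ⟨mem_univ _, lt_of_le_of_ne (hy i) (Ne.symm hne)⟩)
              simp [hiU, h1, h2]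
          rw [h0]
          by_cases hDe : D = ∅
          · rw [hDe, Finset.sum_empty]
            have h1 := hC {a0} (by
              intro i hi j hj hij
              rw [mem_singleton.1 hi, mem_singleton.1 hj] at hij
              exact absurd rfl hij)
            rw [Finset.sum_singleton] at h1
            linarith
          · obtain ⟨d, hd⟩ := Finset.nonempty_iff_ne_empty.2 hDe
            obtain ⟨c, hcD, hcmin⟩ := hwf.has_min {j | j ∈ D} ⟨d, hd⟩
            have hcD' := mem_filter.1 hcD
            obtain ⟨a, haA, hac⟩ := hbelow c hcD'.2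
            have haC : a ∉ C := fun hc' => hCA a hc' haA
            have hac' : lt a c := by
              rcases hac with h | h
              · rw [h] at haA
                exact absurd haA (hCA c hcD'.1)
              · exact h
            have haD : a ∉ D := fun hc' => haC (mem_filter.1 hc').1
            have hall : ∀ j ∈ D, lt a j := by
              intro j hj
              by_cases hjc : j = c
              · rw [hjc]; exact hac'
              · rcases hCc j (mem_filter.1 hj).1 c hcD'.1 hjc with h | h
                · exact absurd h (hcmin j hj)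
                · exact htr _ _ _ hac' h
            have h1 := hC (insert a D) (by
              intro i hi j hj hij
              rcases mem_insert.1 hi with hi | hi <;> rcases mem_insert.1 hj with hj | hj
              · rw [hi, hj] at hij
                exact absurd rfl hij
              · left; rw [hi]; exact hall j hj
              · right; rw [hj]; exact hall i hi
              · exact hCc i (mem_filter.1 hi).1 j (mem_filter.1 hj).1 hij)
            rw [Finset.sum_insert haD] at h1
            have h2 := hmin a haA
            linarith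
      have h1 := IH y' (W - δ) hy' hcard hchain
      have h2 := hS A hAanti
      rw [hsum]
      have h3 : δ * ∑ i ∈ A, h i ≤ δ * S0 := mul_le_mul_of_nonneg_left h2 hδpos.le
      have h4 : (W - δ) * S0 + δ * S0 = W * S0 := by ring
      linarith

end L81

theorem LEV : stmt_LEV := by
  classical
  intro ι _ lt y h W hirr htr hy hh hC
  let 𝒜 : Finset (Finset ι) := univ.filter (fun A => ∀ i ∈ A, ∀ j ∈ A, ¬ lt i j)
  have hne : 𝒜.Nonempty := ⟨∅, by simp [𝒜]⟩
  obtain ⟨A, hA, hmax⟩ := Finset.exists_max_image 𝒜 (fun A => ∑ i ∈ A, h i) hne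
  refine ⟨A, (mem_filter.1 hA).2, ?_⟩
  exact L81.lev_aux lt h _ hirr htr hh
    (fun A' hA' => hmax A' (mem_filter.2 ⟨mem_univ _, hA'⟩)) _ y W hy (le_refl _) hC

end Wn
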