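import Pool.Agent.Work.MP_959bfa_wn.Interface

/-!
MP_959bfa_co, linear weak nets: maximal families of bounded depth and uncrossing.
-/

namespace Wn

open Finset

namespace L81

/-- weak crossing order -/
def Le (R S : Bx) : Prop := S.l ≤ R.l ∧ R.r ≤ S.r ∧ R.b ≤ S.b ∧ S.t ≤ R.t

/-- the point lies in `R` and in neither of the two strips of `S` -/
def Lc (R S : Bx) (x y : ℝ) : Prop := In R x y ∧ (x < S.l ∨ S.r < x) ∧ (y < S.b ∨ S.t < y)

/-- UNX -/
def stmt_UNX : Prop :=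
  ∀ (n : ℕ) (P : Fin n → ℝ × ℝ) (g0 : Fin n → ℝ) (c : ℝ) (t w : ℕ) (R : Fin t → Bx),
    (∀ i, Ne (R i)) → DepthLe R univ w →
    ∃ (R' : Fin t → Bx) (J : Finset (Fin t)), (∀ i ∈ J, Ne (R' i)) ∧ DepthLe R' J w ∧
      ∑ i, (∑ p ∈ inds P (R i), g0 p - c) ≤ ∑ i ∈ J, (∑ p ∈ inds P (R' i), g0 p - c) ∧
      (∀ i ∈ J, 0 ≤ ∑ p ∈ inds P (R' i), g0 p - c) ∧
      ∀ i ∈ J, ∀ j ∈ J, i ≠ j → ¬ Dj (R' i) (R' j) → ¬ Le (R' i) (R' j) → ¬ Le (R' j) (R' i) →
        ∃ p : Fin n, Lc (R' i) (R' j) (P p).1 (P p).2 ∨ Lc (R' j) (R' i) (P p).1 (P p).2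

/-- thin and tall box of the uncrossing -/
def K1 (R S : Bx) : Bx := ⟨max R.l S.l, min R.r S.r, min R.b S.b, max R.t S.t⟩

/-- wide and flat box of the uncrossing -/
def K2 (R S : Bx) : Bx := ⟨min R.l S.l, max R.r S.r, max R.b S.b, min R.t S.t⟩

theorem in_K1 {R S : Bx} {x y : ℝ} : In (K1 R S) x y ↔
    ((R.l ≤ x ∧ S.l ≤ x) ∧ (x ≤ R.r ∧ x ≤ S.r) ∧ (R.b ≤ y ∨ S.b ≤ y) ∧ (y ≤ R.t ∨ y ≤ S.t)) := by
  simp [In, K1]

theorem in_K2 {R S : Bx} {x y : ℝ} : In (K2 R S) x y ↔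
    ((R.l ≤ x ∨ S.l ≤ x) ∧ (x ≤ R.r ∨ x ≤ S.r) ∧ (R.b ≤ y ∧ S.b ≤ y) ∧ (y ≤ R.t ∧ y ≤ S.t)) := by
  simp [In, K2]

/-- the boxes have a common point -/
def Mt (R S : Bx) : Prop := R.l ≤ R.r ∧ R.b ≤ R.t ∧ S.l ≤ S.r ∧ S.b ≤ S.t ∧
  R.l ≤ S.r ∧ S.l ≤ R.r ∧ R.b ≤ S.t ∧ S.b ≤ R.t

theorem mt_of {R S : Bx} (h : ¬ Dj R S) : Mt R S := by
  unfold Dj at h
  push Not at h
  obtain ⟨x, y, ⟨h1, h2, h3, h4⟩, h5, h6, h7, h8⟩ := h
  refine ⟨?_, ?_, ?_, ?_, ?_, ?_, ?_, ?_⟩ <;> linarith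

theorem pw1 {R S : Bx} (h : Mt R S) {x y : ℝ} (hx : In (K1 R S) x y) : In R x y ∨ In S x y := by
  obtain ⟨h1, h2, h3, h4, h5, h6, h7, h8⟩ := h
  obtain ⟨⟨a1, a2⟩, ⟨a3, a4⟩, a5, a6⟩ := in_K1.1 hx
  unfold In
  rcases le_or_gt R.b y with hb | hb
  · rcases le_or_gt y R.t with ht | ht
    · exact Or.inl ⟨a1, a3, hb, ht⟩
    · right
      refine ⟨a2, a4, by linarith, ?_⟩
      rcases a6 with a6 | a6
      · linarith
      · exact a6
  · right
    refine ⟨a2, a4, ?_, by linarith⟩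
    rcases a5 with a5 | a5
    · linarith
    · exact a5

theorem pw2 {R S : Bx} (h : Mt R S) {x y : ℝ} (hx : In (K2 R S) x y) : In R x y ∨ In S x y := by
  obtain ⟨h1, h2, h3, h4, h5, h6, h7, h8⟩ := h
  obtain ⟨a1, a2, ⟨a3, a4⟩, a5, a6⟩ := in_K2.1 hx
  unfold In
  rcases le_or_gt R.l x with hb | hb
  · rcases le_or_gt x R.r with ht | ht
    · exact Or.inl ⟨hb, ht, a3, a5⟩
    · right
      refine ⟨by linarith, ?_, a4, a6⟩
      rcases a2 with a2 | a2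
      · linarith
      · exact a2
  · right
    refine ⟨?_, by linarith, a4, a6⟩
    rcases a1 with a1 | a1
    · linarith
    · exact a1

theorem pw12 {R S : Bx} {x y : ℝ} (hx : In (K1 R S) x y) (hy : In (K2 R S) x y) :
    In R x y ∧ In S x y := by
  obtain ⟨⟨a1, a2⟩, ⟨a3, a4⟩, a5, a6⟩ := in_K1.1 hx
  obtain ⟨b1, b2, ⟨b3, b4⟩, b5, b6⟩ := in_K2.1 hy
  exact ⟨⟨a1, a3, b3, b5⟩, ⟨a2, a4, b4, b6⟩⟩

theorem pw3 {R S : Bx} {x y : ℝ} (hx : In R x y) (hL : ¬ Lc R S x y) :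
    In (K1 R S) x y ∨ In (K2 R S) x y := by
  rw [in_K1, in_K2]
  obtain ⟨h1, h2, h3, h4⟩ := hx
  by_cases hxs : S.l ≤ x ∧ x ≤ S.r
  · left
    exact ⟨⟨h1, hxs.1⟩, ⟨h2, hxs.2⟩, Or.inl h3, Or.inl h4⟩
  · by_cases hys : S.b ≤ y ∧ y ≤ S.t
    · right
      exact ⟨Or.inl h1, Or.inl h2, ⟨h3, hys.1⟩, ⟨h4, hys.2⟩⟩
    · exfalso
      apply hL
      refine ⟨⟨h1, h2, h3, h4⟩, ?_, ?_⟩
      · by_contra hc
        push Not at hc
        exact hxs hc
      · by_contra hc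
        push Not at hc
        exact hys hc

theorem K1_comm (R S : Bx) : K1 R S = K1 S R := by
  simp [K1, max_comm, min_comm]

theorem K2_comm (R S : Bx) : K2 R S = K2 S R := by
  simp [K2, max_comm, min_comm]

theorem pw4 {R S : Bx} {x y : ℝ} (hx : In R x y) (hy : In S x y) :
    In (K1 R S) x y ∧ In (K2 R S) x y := by
  rw [in_K1, in_K2]
  obtain ⟨h1, h2, h3, h4⟩ := hx
  obtain ⟨g1, g2, g3, g4⟩ := hy
  exact ⟨⟨⟨h1, g1⟩, ⟨h2, g2⟩, Or.inl h3, Or.inl h4⟩,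
    ⟨Or.inl h1, Or.inl h2, ⟨h3, g3⟩, ⟨h4, g4⟩⟩⟩

open Classical in
/-- indicator -/
noncomputable def ic (R : Bx) (x y : ℝ) : ℕ := if In R x y then 1 else 0

theorem ic_le {R S : Bx} (h : Mt R S) (x y : ℝ) :
    ic (K1 R S) x y + ic (K2 R S) x y ≤ ic R x y + ic S x y := by
  classical
  unfold ic
  by_cases h1 : In (K1 R S) x y <;> by_cases h2 : In (K2 R S) x y
  · obtain ⟨h3, h4⟩ := pw12 h1 h2
    simp [h1, h2, h3, h4]
  · rcases pw1 h h1 with h3 | h3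
    · simp [h1, h2, h3]
    · simp [h1, h2, h3]
  · rcases pw2 h h2 with h3 | h3
    · simp [h1, h2, h3]
    · simp [h1, h2, h3]
  · simp [h1, h2]

theorem ic_eq {R S : Bx} (h : Mt R S) (x y : ℝ) (hL : ¬ Lc R S x y) (hL' : ¬ Lc S R x y) :
    ic (K1 R S) x y + ic (K2 R S) x y = ic R x y + ic S x y := by
  classical
  apply le_antisymm (ic_le h x y)
  unfold ic
  by_cases h1 : In R x y <;> by_cases h2 : In S x y
  · obtain ⟨h3, h4⟩ := pw4 h1 h2
    simp [h1, h2, h3, h4]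
  · rcases pw3 h1 hL with h3 | h3
    · simp [h1, h2, h3]
    · simp [h1, h2, h3]
  · have h4 := pw3 h2 hL'
    rw [K1_comm, K2_comm] at h4
    rcases h4 with h3 | h3
    · simp [h1, h2, h3]
    · simp [h1, h2, h3]
  · simp [h1, h2]

theorem sum_inds {n : ℕ} (P : Fin n → ℝ × ℝ) (g0 : Fin n → ℝ) (R : Bx) :
    ∑ p ∈ inds P R, g0 p = ∑ p, (ic R (P p).1 (P p).2 : ℝ) * g0 p := by
  classical
  have h : inds P R = univ.filter (fun p => In R (P p).1 (P p).2) := by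
    ext p
    simp [inds, mem_fl]
  rw [h, Finset.sum_filter]
  refine Finset.sum_congr rfl (fun p _ => ?_)
  unfold ic
  by_cases h1 : In R (P p).1 (P p).2 <;> simp [h1]

theorem sum_unx {n : ℕ} (P : Fin n → ℝ × ℝ) (g0 : Fin n → ℝ) {R S : Bx} (h : Mt R S)
    (hL : ∀ p, ¬ Lc R S (P p).1 (P p).2 ∧ ¬ Lc S R (P p).1 (P p).2) :
    ∑ p ∈ inds P (K1 R S), g0 p + ∑ p ∈ inds P (K2 R S), g0 p =
      ∑ p ∈ inds P R, g0 p + ∑ p ∈ inds P S, g0 p := by
  rw [sum_inds, sum_inds, sum_inds, sum_inds, ← Finset.sum_add_distrib,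
    ← Finset.sum_add_distrib]
  refine Finset.sum_congr rfl (fun p _ => ?_)
  have h1 := ic_eq h (P p).1 (P p).2 (hL p).1 (hL p).2
  have h2 : (ic (K1 R S) (P p).1 (P p).2 : ℝ) + ic (K2 R S) (P p).1 (P p).2 =
      ic R (P p).1 (P p).2 + ic S (P p).1 (P p).2 := by exact_mod_cast h1
  rw [← add_mul, ← add_mul, h2]

/-- width minus height -/
def dd (R : Bx) : ℝ := (R.r - R.l) - (R.t - R.b)

theorem dd_sum (R S : Bx) : dd (K1 R S) + dd (K2 R S) = dd R + dd S := by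
  unfold dd K1 K2
  simp only
  have h1 := max_add_min R.l S.l
  have h2 := max_add_min R.r S.r
  have h3 := max_add_min R.b S.b
  have h4 := max_add_min R.t S.t
  linarith

theorem dd_lt {R S : Bx} (h : ¬ Le R S) : dd (K1 R S) < dd R := by
  unfold dd K1
  simp only
  have h1 : R.l ≤ max R.l S.l := le_max_left _ _
  have h2 : min R.r S.r ≤ R.r := min_le_left _ _
  have h3 : min R.b S.b ≤ R.b := min_le_left _ _
  have h4 : R.t ≤ max R.t S.t := le_max_left _ _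
  by_contra hc
  push Not at hc
  apply h
  refine ⟨?_, ?_, ?_, ?_⟩
  · have h5 : max R.l S.l = R.l := by linarith
    rw [← h5]; exact le_max_right _ _
  · have h5 : min R.r S.r = R.r := by linarith
    rw [← h5]; exact min_le_right _ _
  · have h5 : min R.b S.b = R.b := by linarith
    rw [← h5]; exact min_le_right _ _
  · have h5 : max R.t S.t = R.t := by linarith
    rw [← h5]; exact le_max_right _ _

theorem psi_lt {R S : Bx} (h : ¬ Le R S) (h' : ¬ Le S R) :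
    dd R ^ 2 + dd S ^ 2 < dd (K1 R S) ^ 2 + dd (K2 R S) ^ 2 := by
  have h1 := dd_sum R S
  have h2 := dd_lt h
  have h3 := dd_lt h'
  rw [K1_comm] at h3
  have h4 : dd (K2 R S) = dd R + dd S - dd (K1 R S) := by linarith
  rw [h4]
  have h5 : 0 < (dd R - dd (K1 R S)) * (dd S - dd (K1 R S)) :=
    mul_pos (by linarith) (by linarith)
  nlinarith

theorem sum_upd {t : ℕ} {M : Type} [AddCommMonoid M] (f : Bx → M) (R : Fin t → Bx)
    (J : Finset (Fin t)) {i j : Fin t} (hi : i ∈ J) (hj : j ∈ J) (hij : i ≠ j) (A B : Bx) :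
    ∑ k ∈ J, f (Function.update (Function.update R i A) j B k) =
      f A + f B + ∑ k ∈ (J.erase i).erase j, f (R k) := by
  classical
  have hj' : j ∈ J.erase i := mem_erase.2 ⟨hij.symm, hj⟩
  rw [← Finset.add_sum_erase _ _ hi, ← Finset.add_sum_erase _ _ hj', ← add_assoc]
  have h1 : Function.update (Function.update R i A) j B i = A := by
    rw [Function.update_of_ne hij, Function.update_self]
  have h2 : Function.update (Function.update R i A) j B j = B := by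
    rw [Function.update_self]
  rw [h1, h2]
  congr 1
  refine Finset.sum_congr rfl (fun k hk => ?_)
  have h3 := mem_erase.1 hk
  have h4 := mem_erase.1 h3.2
  rw [Function.update_of_ne h3.1, Function.update_of_ne h4.1]

theorem sum_upd' {t : ℕ} {M : Type} [AddCommMonoid M] (f : Bx → M) (R : Fin t → Bx)
    (J : Finset (Fin t)) {i j : Fin t} (hi : i ∈ J) (hj : j ∈ J) (hij : i ≠ j) :
    ∑ k ∈ J, f (R k) = f (R i) + f (R j) + ∑ k ∈ (J.erase i).erase j, f (R k) := by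
  classical
  have hj' : j ∈ J.erase i := mem_erase.2 ⟨hij.symm, hj⟩
  rw [← Finset.add_sum_erase _ _ hi, ← Finset.add_sum_erase _ _ hj', ← add_assoc]

theorem depth_sum {t : ℕ} (R : Fin t → Bx) (J : Finset (Fin t)) (x y : ℝ) :
    (fl J (fun j => In (R j) x y)).card = ∑ k ∈ J, ic (R k) x y := by
  classical
  unfold fl ic
  rw [Finset.card_filter]

theorem UNX : stmt_UNX := by
  classical
  intro n P g0 c t w R hNe hD
  set g : Bx → ℝ := fun S => ∑ p ∈ inds P S, g0 p - c with hg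
  -- the grid
  let A1 : Set ℝ := Set.range (fun i => (R i).l)
  let A2 : Set ℝ := Set.range (fun i => (R i).r)
  let A3 : Set ℝ := Set.range (fun i => (R i).b)
  let A4 : Set ℝ := Set.range (fun i => (R i).t)
  let G : Set Bx := {S | S.l ∈ A1 ∧ S.r ∈ A2 ∧ S.b ∈ A3 ∧ S.t ∈ A4}
  have hG : G.Finite := by
    have h1 : (A1 ×ˢ A2 ×ˢ A3 ×ˢ A4).Finite :=
      (Set.finite_range _).prod ((Set.finite_range _).prod
        ((Set.finite_range _).prod (Set.finite_range _)))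
    refine Set.Finite.subset (h1.image (fun q => (⟨q.1, q.2.1, q.2.2.1, q.2.2.2⟩ : Bx))) ?_
    intro S hS
    exact ⟨(S.l, S.r, S.b, S.t), ⟨hS.1, hS.2.1, hS.2.2.1, hS.2.2.2⟩, rfl⟩
  have hGmax : ∀ {a b : ℝ} {A : Set ℝ}, a ∈ A → b ∈ A → max a b ∈ A := by
    intro a b A ha hb
    rcases max_choice a b with h | h <;> rw [h] <;> assumption
  have hGmin : ∀ {a b : ℝ} {A : Set ℝ}, a ∈ A → b ∈ A → min a b ∈ A := by
    intro a b A ha hb
    rcases min_choice a b with h | h <;> rw [h] <;> assumption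
  have hK1 : ∀ {S T : Bx}, S ∈ G → T ∈ G → K1 S T ∈ G := fun hS hT =>
    ⟨hGmax hS.1 hT.1, hGmin hS.2.1 hT.2.1, hGmin hS.2.2.1 hT.2.2.1, hGmax hS.2.2.2 hT.2.2.2⟩
  have hK2 : ∀ {S T : Bx}, S ∈ G → T ∈ G → K2 S T ∈ G := fun hS hT =>
    ⟨hGmin hS.1 hT.1, hGmax hS.2.1 hT.2.1, hGmax hS.2.2.1 hT.2.2.1, hGmin hS.2.2.2 hT.2.2.2⟩
  -- the class
  let C : Set ((Fin t → Bx) × Finset (Fin t)) :=
    {q | (∀ i, q.1 i ∈ G) ∧ (∀ i ∈ q.2, Ne (q.1 i)) ∧ DepthLe q.1 q.2 w}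
  have hC : C.Finite := by
    have h1 : (Set.pi Set.univ (fun _ : Fin t => G)).Finite := Set.Finite.pi' (fun _ => hG) |>.subset
      (fun f hf i => hf i (Set.mem_univ i))
    refine Set.Finite.subset (h1.prod (Set.finite_univ : (Set.univ : Set (Finset (Fin t))).Finite)) ?_
    intro q hq
    exact ⟨fun i _ => hq.1 i, Set.mem_univ _⟩
  have hCne : C.Nonempty := ⟨(R, univ), fun i => ⟨⟨i, rfl⟩, ⟨i, rfl⟩, ⟨i, rfl⟩, ⟨i, rfl⟩⟩,
    fun i _ => hNe i, hD⟩
  obtain ⟨q0, hq0, hmax0⟩ := Set.exists_max_image C (fun q => ∑ i ∈ q.2, g (q.1 i)) hC hCne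
  let C' : Set ((Fin t → Bx) × Finset (Fin t)) :=
    {q | q ∈ C ∧ ∑ i ∈ q.2, g (q.1 i) = ∑ i ∈ q0.2, g (q0.1 i)}
  have hC' : C'.Finite := hC.subset (fun q hq => hq.1)
  obtain ⟨q, hq, hmax⟩ := Set.exists_max_image C' (fun q => ∑ i ∈ q.2, dd (q.1 i) ^ 2) hC'
    ⟨q0, hq0, rfl⟩
  obtain ⟨⟨hqG, hqN, hqD⟩, hqs⟩ := hq
  have hmax1 : ∀ q' ∈ C, ∑ i ∈ q'.2, g (q'.1 i) ≤ ∑ i ∈ q.2, g (q.1 i) := by
    intro q' hq'
    rw [hqs]
    exact hmax0 q' hq'
  refine ⟨q.1, q.2, hqN, hqD, hmax1 (R, univ) ⟨fun i => ⟨⟨i, rfl⟩, ⟨i, rfl⟩, ⟨i, rfl⟩, ⟨i, rfl⟩⟩,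
    fun i _ => hNe i, hD⟩, ?_, ?_⟩
  · intro i hi
    by_contra hc
    push Not at hc
    have h1 := hmax1 (q.1, q.2.erase i) ⟨hqG, fun k hk => hqN k (mem_of_mem_erase hk), ?_⟩
    · have h2 := Finset.add_sum_erase q.2 (fun k => g (q.1 k)) hi
      simp only at h1 h2
      have h3 : g (q.1 i) < 0 := hc
      linarith
    · intro x y
      refine (Finset.card_le_card ?_).trans (hqD x y)
      intro k hk
      exact mem_fl.2 ⟨mem_of_mem_erase (mem_fl.1 hk).1, (mem_fl.1 hk).2⟩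
  · intro i hi j hj hij hm hl hl'
    by_contra hc
    push Not at hc
    have hM := mt_of hm
    set A := K1 (q.1 i) (q.1 j) with hA
    set B := K2 (q.1 i) (q.1 j) with hB
    set R2 : Fin t → Bx := Function.update (Function.update q.1 i A) j B with hR2
    have hgAB : g A + g B = g (q.1 i) + g (q.1 j) := by
      have h1 := sum_unx P g0 hM hc
      simp only [hg]
      linarith
    have hval : ∀ k, R2 k = A ∨ R2 k = B ∨ R2 k = q.1 k := by
      intro k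
      by_cases hk : k = j
      · right; left; rw [hR2, hk, Function.update_self]
      · by_cases hk' : k = i
        · left; rw [hR2, Function.update_of_ne hk, hk', Function.update_self]
        · right; right; rw [hR2, Function.update_of_ne hk, Function.update_of_ne hk']
    have hNA : Ne A := by
      obtain ⟨h1, h2, h3, h4, h5, h6, h7, h8⟩ := hM
      refine ⟨?_, ?_⟩
      · simp only [hA, K1, max_le_iff, le_min_iff]
        exact ⟨⟨h1, h6⟩, h5, h3⟩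
      · simp only [hA, K1, min_le_iff, le_max_iff]
        left; left; exact h2
    have hNB : Ne B := by
      obtain ⟨h1, h2, h3, h4, h5, h6, h7, h8⟩ := hM
      refine ⟨?_, ?_⟩
      · simp only [hB, K2, min_le_iff, le_max_iff]
        left; left; exact h1
      · simp only [hB, K2, max_le_iff, le_min_iff]
        exact ⟨⟨h2, h8⟩, h7, h4⟩
    have hin : (R2, q.2) ∈ C := by
      refine ⟨?_, ?_, ?_⟩
      · intro k
        rcases hval k with h | h | h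
        · show R2 k ∈ G
          rw [h]; exact hK1 (hqG i) (hqG j)
        · show R2 k ∈ G
          rw [h]; exact hK2 (hqG i) (hqG j)
        · show R2 k ∈ G
          rw [h]; exact hqG k
      · intro k hk
        show Ne (R2 k)
        rcases hval k with h | h | h
        · rw [h]; exact hNA
        · rw [h]; exact hNB
        · rw [h]; exact hqN k hk
      · intro x y
        show (fl q.2 (fun j => In (R2 j) x y)).card ≤ w
        rw [depth_sum]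
        have h1 := sum_upd (fun S => ic S x y) q.1 q.2 hi hj hij A B
        have h2 := sum_upd' (fun S => ic S x y) q.1 q.2 hi hj hij
        have h3 := hqD x y
        rw [depth_sum] at h3
        have h4 := ic_le hM x y
        rw [h1]
        rw [h2] at h3
        have h5 : ic A x y + ic B x y ≤ ic (q.1 i) x y + ic (q.1 j) x y := h4
        omega
    have hsum : ∑ k ∈ q.2, g (R2 k) = ∑ k ∈ q.2, g (q.1 k) := by
      rw [sum_upd g q.1 q.2 hi hj hij A B, sum_upd' g q.1 q.2 hi hj hij, hgAB]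
    have hin' : (R2, q.2) ∈ C' := ⟨hin, by
      show ∑ k ∈ q.2, g (R2 k) = _
      rw [hsum, hqs]⟩
    have h1 := hmax (R2, q.2) hin'
    have h2 : ∑ k ∈ q.2, dd (R2 k) ^ 2 ≤ ∑ k ∈ q.2, dd (q.1 k) ^ 2 := h1
    rw [sum_upd (fun S => dd S ^ 2) q.1 q.2 hi hj hij A B,
      sum_upd' (fun S => dd S ^ 2) q.1 q.2 hi hj hij] at h2
    have h3 := psi_lt hl hl'
    have h4 : dd (q.1 i) ^ 2 + dd (q.1 j) ^ 2 < dd A ^ 2 + dd B ^ 2 := h3
    linarith

end L81

end Wn
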