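import Pool.Agent.Work.MP_959bfa_lin.Interface3
import Pool.Agent.Work.MP_959bfa_lin_helper81.UNX

/-!
MP_959bfa_co, linear weak nets: block UNC.
-/

namespace Wn

open Finset

theorem UNC : stmt_UNC := by
  classical
  intro n t w P a c R hNe hw hD
  obtain ⟨R', J, hN, hDJ, hsum, hg, hU⟩ := L81.UNX n P a c t w R hNe hD
  have hwpos : (0 : ℝ) < w := by exact_mod_cast hw
  set I : Finset Bx := J.image R' with hI
  set m : Bx → ℕ := fun S => (J.filter (fun j => R' j = S)).card with hm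
  have hrep : ∀ S ∈ I, ∃ j ∈ J, R' j = S := fun S hS => by
    obtain ⟨j, hj, hj'⟩ := mem_image.1 hS
    exact ⟨j, hj, hj'⟩
  have hfib : ∀ f : Bx → ℝ, ∑ j ∈ J, f (R' j) = ∑ S ∈ I, (m S : ℝ) * f S := by
    intro f
    rw [← Finset.sum_fiberwise_of_maps_to (g := R') (t := I)
      (fun j hj => mem_image_of_mem _ hj)]
    refine Finset.sum_congr rfl (fun S hS => ?_)
    rw [Finset.sum_congr rfl (fun j hj => by rw [(mem_filter.1 hj).2]), Finset.sum_const,
      nsmul_eq_mul]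
  refine ⟨{S // S ∈ I}, inferInstance, fun S => S.1, fun S => (m S.1 : ℝ) / w, ?_, ?_, ?_, ?_,
    ?_, ?_, ?_⟩
  · rintro ⟨S, hS⟩
    obtain ⟨j, hj, rfl⟩ := hrep S hS
    exact hN j hj
  · exact Subtype.val_injective
  · rintro ⟨S, hS⟩
    obtain ⟨j, hj, hj'⟩ := hrep S hS
    have h1 : 0 < m S := card_pos.2 ⟨j, mem_filter.2 ⟨hj, hj'⟩⟩
    have h2 : (0 : ℝ) < m S := by exact_mod_cast h1
    exact div_pos h2 hwpos
  · intro u v
    have h1 := hDJ u v
    rw [L81.depth_sum] at h1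
    have h2 : ((∑ k ∈ J, L81.ic (R' k) u v : ℕ) : ℝ) ≤ w := by exact_mod_cast h1
    have h3 : ((∑ k ∈ J, L81.ic (R' k) u v : ℕ) : ℝ) =
        ∑ S ∈ I, (m S : ℝ) * (L81.ic S u v : ℝ) := by
      rw [← hfib (fun S => (L81.ic S u v : ℝ))]
      push_cast
      rfl
    have h4 : ∑ i ∈ fl univ (fun i : {S // S ∈ I} => In i.1 u v), (m i.1 : ℝ) / w =
        (∑ S ∈ I, (m S : ℝ) * (L81.ic S u v : ℝ)) / w := by
      unfold fl
      rw [Finset.sum_filter, Finset.sum_div, ← Finset.sum_coe_sort I]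
      refine Finset.sum_congr rfl (fun S _ => ?_)
      unfold L81.ic
      by_cases h : In S.1 u v <;> simp [h]
    rw [h4, div_le_one hwpos, ← h3]
    exact h2
  · rintro ⟨S, hS⟩
    obtain ⟨j, hj, rfl⟩ := hrep S hS
    exact hg j hj
  · have h1 : ∑ i, gn P a c (R i) ≤ ∑ j ∈ J, gn P a c (R' j) := hsum
    refine h1.trans (le_of_eq ?_)
    rw [hfib (fun S => gn P a c S), ← Finset.sum_coe_sort I, Finset.mul_sum]
    refine Finset.sum_congr rfl (fun S _ => ?_)
    field_simp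
  · rintro ⟨S, hS⟩ ⟨T, hT⟩ h1 h2
    obtain ⟨i, hi, rfl⟩ := hrep S hS
    obtain ⟨j, hj, rfl⟩ := hrep T hT
    by_cases hij : i = j
    · subst hij
      exact absurd ⟨le_refl _, le_refl _, le_refl _, le_refl _⟩ h1
    · by_cases hd : Dj (R' i) (R' j)
      · exact Or.inl hd
      · exact Or.inr (hU i hi j hj hij hd h1 h2)

end Wn
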